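import Pool.Agent.Y149.TL.Uni

/-!
# The conjecture of Tate on the order of the pole for products of many elliptic curves

`X` is a smooth projective variety over `ℚ` (for example a point) and `E_i`, `i ∈ ι`, are modular
elliptic curves over `ℚ`, for example all elliptic curves over `ℚ` up to isogeny.  We study
`L(H^n(X × E_{l_1} × ⋯ × E_{l_k}), s)` at the edge `s = n/2 + 1` for all `k`-tuples `l` of indices, `k`
and `n` arbitrary; for `n = 2m` this is the point `s = m + 1` in the conjecture.  For general `X` these
orders are not known for any `k ≥ 1`, and for a point `X` they are not known for `k ≥ 6`, since the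
tensor products of six Galois representations of elliptic curves are not known to be automorphic, not
even potentially.

The conjecture predicts that the order of the pole is the number coming from the part
`H^*(X) ⊗ (H^0 ⊕ H^2)^{⊗k}` of the cohomology, unless there are more algebraic classes, which happens
for few tuples.  For a point `X` the prediction is `C(k, m)`, the rank of the group of the
codimension `m` cycles modulo homological equivalence on a product of `k` elliptic curves, no two of
them isogenous over the algebraic closure.  We prove that the prediction is right for `100` percent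
of all `k`-tuples, with a power saving: for all but `C N^{k-1}` of the `N^k` tuples of members of
every set of `N` curves, in mean square and with an explicit constant; nothing is assumed about
analytic continuation, except that the order exists, where we speak about an order.  Moreover every
infinite family of curves contains ONE infinite subfamily which works for all varieties `X` over `ℚ` at
once (there are only countably many): for every `X` the products of `X` with any number of different
members of the subfamily, apart from finitely many members which depend on `X`, have the predicted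
order in all codimensions.

The definitions are in `Pool.Agent.Y149.PK.Defs`, `Pool.Agent.Y149.PK.Point`,
`Pool.Agent.Y149.CM.Defs` and `Pool.Agent.Y722.EP.Defs`.  The proof uses the one-sided orthogonality of
the traces of Frobenius of modular elliptic curves from `Pool.Agent.Y722.RS` (library of the team
member helper722).
-/

set_option autoImplicit false

namespace Pool.Agent.Results.MP_058a58_ag.ManyFactors

open Filter Topology Polynomial
open Pool.Agent.Y149.CM (LFun)
open Pool.Agent.Y149.PK

/-- **Products of many elliptic curves.**  `E_i`, `i ∈ ι`, are modular elliptic curves over `ℚ`, at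
most `M` in every isogeny class, and for a smooth projective variety `X` over `ℚ` `B l n` are the Euler
factors of `L(H^n(X × E_{l_1} × ⋯ × E_{l_k}), s)`.  Let `D` be the dimension of the part of
`H^n(X × E_1 × ⋯ × E_k)` outside of `H^*(X) ⊗ (H^0 ⊕ H^2)^{⊗k}`.
1. For every finite set `J` of indices, `η > 0` and all small `ε > 0` the sum over all `k`-tuples
`l` of members of `J` of the squares of
`(log |L(H^n(X × E_l), n/2+1+ε)| - ∑_a C(k,a) log |L(H^{n-2a}(X), n/2-a+1+ε)|) / log(1/ε)`
is at most `(M/2) D² |J|^{k-1} + η`.
2. If the `L(H^{n-2a}(X), s)` have poles of order `r₀(n-2a)` at the edge, then the sum of the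
`(r(l) - ∑_a C(k,a) r₀(n-2a))²` over all `k`-tuples `l` of members of `J` for which the order `-r(l)`
of `L(H^n(X × E_l), s)` at `s = n/2 + 1` exists is at most `(M/2) D² |J|^{k-1}`.  In particular
`r(l)` is different from the prediction for at most `(M/2) D² |J|^{k-1}` of these tuples.
3. If `X` is a point, the prediction for `n = 2m` is `C(k,m)` and `D = C(2k,2m) - C(k,m)`: the sum of
the `(r(l) - C(k,m))²` over all `k`-tuples of members of `J` for which the order `-r(l)` of
`L(H^{2m}(E_{l_1} × ⋯ × E_{l_k}), s)` at `s = m + 1` exists is at most `(M/2) D² |J|^{k-1}`.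
4. Let `ι` be infinite and let `X_0, X_1, …` be a sequence of smooth projective varieties over `ℚ`, for
example all of them, for which all these orders exist.  There is an infinite subset `𝒥` of `ι` with
finite subsets `F_0, F_1, …` such that for all `j`, `k`, `n` and all `k`-tuples of different members of
`𝒥` outside of `F_j` the order for `H^n(X_j × E_l)` is the predicted one. -/
theorem result (ι : Type) (M : ℕ) (a b : ι → ℤ) (hE : IsEllipticFamily M a b) :
    (∀ (X : Variety) (B : List ι → ℕ → Nat.Primes → ℂ[X]), IsEllSystem X a b B →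
      (∀ (k n : ℕ) (J : Finset ι) (η : ℝ), 0 < η → ∀ᶠ ε : ℝ in 𝓝[>] 0,
        (∀ c, c ≤ n → LFun (B [] c) ((c : ℂ) / 2 + 1 + ε) ≠ 0) ∧
        (∀ l ∈ tuples J k, LFun (B (List.ofFn l) n) ((n : ℂ) / 2 + 1 + ε) ≠ 0) ∧
        ∑ l ∈ tuples J k,
          (size n (B (List.ofFn l) n) ε - evenPart (fun c => size c (B [] c) ε) k n) ^ 2 ≤
          M / 2 * ((dimH X.betti k n : ℝ) - (evenPart X.betti k n : ℕ)) ^ 2 *
            (J.card : ℝ) ^ (k - 1) + η) ∧
      (∀ (k n : ℕ) (r₀ : ℕ → ℤ), (∀ c, c ≤ n → Even (n - c) → HasOrder c (B [] c) (-(r₀ c))) →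
        ∀ (J : Finset ι) (S : Finset (Fin k → ι)) (r : (Fin k → ι) → ℤ),
        (∀ l ∈ S, (∀ i, l i ∈ J) ∧ HasOrder n (B (List.ofFn l) n) (-(r l))) →
        2 * ∑ l ∈ S, (r l - evenPart r₀ k n) ^ 2 ≤
          M * ((dimH X.betti k n : ℤ) - (evenPart X.betti k n : ℕ)) ^ 2 *
            (J.card : ℤ) ^ (k - 1))) ∧
    (∀ A : List ι → ℕ → Nat.Primes → ℂ[X], IsEllSystem point a b A →
      ∀ (k m : ℕ) (J : Finset ι) (S : Finset (Fin k → ι)) (r : (Fin k → ι) → ℤ),
      (∀ l ∈ S, (∀ i, l i ∈ J) ∧ HasOrder (2 * m) (A (List.ofFn l) (2 * m)) (-(r l))) →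
      2 * ∑ l ∈ S, (r l - k.choose m) ^ 2 ≤
        M * (((2 * k).choose (2 * m) : ℤ) - k.choose m) ^ 2 * (J.card : ℤ) ^ (k - 1)) ∧
    (Infinite ι → ∀ (X : ℕ → Variety) (B : ℕ → List ι → ℕ → Nat.Primes → ℂ[X]),
      (∀ j, IsEllSystem (X j) a b (B j)) →
      ∀ r : ℕ → List ι → ℕ → ℤ, (∀ j l n, HasOrder n (B j l n) (-(r j l n))) →
      ∃ 𝒥 : Set ι, 𝒥.Infinite ∧ ∀ j, ∃ F : Finset ι, (∀ x ∈ F, x ∈ 𝒥) ∧
        ∀ (k : ℕ) (l : Fin k → ι), Function.Injective l → (∀ i, l i ∈ 𝒥 ∧ l i ∉ F) →
        ∀ n, r j (List.ofFn l) n = evenPart (r j []) k n) := by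
  refine ⟨fun X B hB => ⟨fun k n J η hη => ?_, fun k n r₀ hr₀ J S r hS => ?_⟩,
    fun A hA k m J S r hS => ?_, fun hι X B hB r hr => ?_⟩
  · have h1 := bases_ne X (B := fun c => B [] c) (fun c => hB [] c) n
    have h2 := ell_mean hE X (B₀ := fun c => B [] c) (fun c => hB [] c) (k := k) (n := n)
      (B := fun l => B (List.ofFn l) n) (fun l => hB (List.ofFn l) n) J hη
    filter_upwards [h1, h2] with ε g1 g2
    exact ⟨g1, g2.1, g2.2⟩
  · exact ell_order hE X (B₀ := fun c => B [] c) (fun c => hB [] c)
      (B := fun l => B (List.ofFn l) n) (fun l => hB (List.ofFn l) n) hr₀ J S r hS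
  · exact ell_point hE (B := fun l => A (List.ofFn l) (2 * m))
      (fun l => hA (List.ofFn l) (2 * m)) J S r hS
  · exact Pool.Agent.Y149.TL.ell_universal hE X hB hr

end Pool.Agent.Results.MP_058a58_ag.ManyFactors
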