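import Pool.Agent.Y149.CM.Main

/-!
# Tate's pole conjecture for the products of a variety with the curves `y² = x³ - d² x`

`X` is a smooth projective variety over `ℚ` of dimension `D` whose cohomology in all even degrees is
generated by algebraic cycles over `ℚ`: for example any curve, any smooth complete intersection of
odd dimension, any blow-up of a projective space in curves defined over `ℚ`, and the products of
these with projective spaces and flag varieties.  At almost all primes the Frobenius eigenvalues on
`H^a(X)`, `a` even, are then all equal to `p^{a/2}`; this is the only thing that is used.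
`E_d : y² = x³ - d² x`, `d ≥ 1`, are the congruent number curves (the twists of `y² = x³ - x`), and
`l = [d_1, …, d_k]` is a list of positive integers, with repetitions allowed.

The theorem is about the orders at `s = m + 1` of the `L`-functions of `H^{2m}` of the products
`X × E_{d_1} × ⋯ × E_{d_k}`, for all `k`, `d_1, …, d_k` and `m`.  The definitions are in
`Pool.Agent.Y149.CM.Defs`:

* `IsFrobenius X D p β`, `traceE`, `frobE`, `kunneth`, `frobProd`: the Frobenius eigenvalues on the
  cohomology of `X` (through the numbers of points), of `E_d`, and of the products (Künneth formula);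
* `IsEuler β l m B`: `B` are the Euler factors of `L(H^{2m}(X × E_{d_1} × ⋯ × E_{d_k}), s)`;
* `size m B ε = log |L(m + 1 + ε)| / log(1/ε)`, and `HasOrder m B r`: `r = ord_{s = m + 1} L(s)`;
* `rankProd N l m = ∑_j N_{2(m-j)} rank B^j(E_{d_1} × ⋯ × E_{d_k})`, `N_a` the Betti numbers of
  `X`.  This is the rank of `B^m(X × E_{d_1} × ⋯ × E_{d_k})` unless one of the products of an odd
  number of the `d_i` is in a certain set of at most `∑_{a odd} N_a / 2` classes of integers modulo
  squares (those of the curves a power of whose Hecke character occurs in the odd cohomology of `X`);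
* `Avoids S l`: no product of an odd number of members of the list is in `S` times a square.
-/

set_option autoImplicit false

namespace Pool.Agent.Results.MP_058a58_ag.ProductsWithCMCurves

open Filter Topology Pool.Agent.Y149.CM

/-- **Tate's conjecture on the pole for the products `X × E_{d_1} × ⋯ × E_{d_k}`, with finitely many
exceptions.**  Let `R = ∑ N_a²` over all odd `a`; for a curve of genus `g` this is `4 g²`.

1. For every `k` there is a set `S` of at most `16^{k-1} R / 2` squarefree numbers such that for all
`d_1, …, d_k ≥ 1` no odd product of which is in `S` up to squares, and for all `m`: if the order of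
`L(H^{2m}(X × E_{d_1} × ⋯ × E_{d_k}), s)` at `s = m + 1` exists, it is `-rankProd N l m`; and for
arbitrarily small `ε > 0` the number `log |L(m + 1 + ε)| / log(1/ε)` differs from `rankProd N l m` by
less than one.

2. If the order of `L(H^{2m}(X × E_d^k), s)` at `s = m + 1` exists for all squarefree `d`, all odd `k`
and all `m`, then there is one set `S` of at most `R / 2` squarefree numbers (`2 g²` for a curve) such
that for all `k`, all `d_1, …, d_k ≥ 1` no odd product of which is in `S` up to squares, and all `m`,
`log |L(m + 1 + ε)| / log(1/ε)` tends to `rankProd N l m` as `ε → 0+`, and the order at `s = m + 1` is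
`-rankProd N l m` if it exists. -/
theorem result {n : ℕ} (X : Set (MvPolynomial (Fin n) ℤ)) (D : ℕ) (N : ℕ → ℕ)
    (β : Nat.Primes → ℕ → Multiset ℂ)
    (hX : ∀ᶠ p : Nat.Primes in cofinite, IsFrobenius X D p (β p) ∧
      (∀ a, Multiset.card (β p a) = N a) ∧
      ∀ a, Even a → ∀ z ∈ β p a, z = ((p : ℕ) : ℂ) ^ (a / 2)) :
    (∀ k : ℕ, ∃ S : Finset ℕ, (∀ c ∈ S, Squarefree c) ∧
      2 * S.card ≤ 16 ^ (k - 1) * ∑ a ∈ (Finset.range (2 * D + 1)).filter Odd, N a ^ 2 ∧
      ∀ l : List ℕ, l.length = k → (∀ d ∈ l, 0 < d) → Avoids S l → ∀ m B, IsEuler β l m B →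
        (∃ᶠ ε : ℝ in 𝓝[>] 0, |size m B ε - rankProd N l m| < 1) ∧
        ∀ r : ℤ, HasOrder m B r → r = -(rankProd N l m : ℤ)) ∧
    ((∀ d, Squarefree d → ∀ k, Odd k → ∀ m, ∃ B r,
        IsEuler β (List.replicate k d) m B ∧ HasOrder m B r) →
      ∃ S : Finset ℕ, (∀ c ∈ S, Squarefree c) ∧
        2 * S.card ≤ ∑ a ∈ (Finset.range (2 * D + 1)).filter Odd, N a ^ 2 ∧
        ∀ l : List ℕ, (∀ d ∈ l, 0 < d) → Avoids S l → ∀ m B, IsEuler β l m B →
          Tendsto (size m B) (𝓝[>] 0) (𝓝 (rankProd N l m : ℝ)) ∧
          ∀ r : ℤ, HasOrder m B r → r = -(rankProd N l m : ℤ)) := by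
  have hXG : ∀ᶠ p : Nat.Primes in cofinite, XG N p (β p) :=
    hX.mono fun p h => XG_of h.1 h.2.1 h.2.2
  have hN : ∀ a, 2 * D < a → N a = 0 := by
    obtain ⟨p, hp⟩ := hX.exists
    intro a ha
    rw [← hp.2.1 a, hp.1.vanish a ha]
    rfl
  refine ⟨fixed_k hXG hN, fun H => ?_⟩
  obtain ⟨_, _, _, h⟩ := structure_int hXG hN H
  exact h

end Pool.Agent.Results.MP_058a58_ag.ProductsWithCMCurves
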