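import Pool.Agent.Y139.SM.Final

/-!
# Tate's conjecture on the pole and the poles of the self-products

`X` is a smooth projective variety over a number field `K`, for example over `K = ℚ`, and `V = A^m(X) ⊗ ℚ`
the space of the classes of the algebraic cycles of codimension `m` defined over the algebraic closure;
`T` is the complement of `V(-m)` in `H^{2m}(X)`, of dimension `s = N - dim V` (the transcendental part).
`L(T ⊗ T, s)` is a factor of `L(H^{4m}(X × X), s)` and `L(T^{⊗ 4}, s)` a factor of `L(H^{8m}(X⁴), s)`.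
The definitions are in `Pool.Agent.Y139.SM.Defs`, `Pool.Agent.W353.AT.TDefs`,
`Pool.Agent.W353.AT.Defs`, `Pool.Agent.W353.TD.Defs`, `Pool.Agent.W353.EH.Defs` and
`Pool.Agent.W353.EF.Defs`.
-/

set_option autoImplicit false

namespace Pool.Agent.Results.MP_058a58_ag.SelfProductPoles

open NumberField IsDedekindDomain Filter Topology Polynomial
open Pool.Agent.W353.EF (LFun)
open Pool.Agent.W353.EH (edgePoint size)
open Pool.Agent.W353.TD (IsPart rank)
open Pool.Agent.W353.AT (IsArtin IsTwistedSystem twistRank TwistDefect)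
open Pool.Agent.Y139.SM (IsTensorSystem TensorPole)

/-- **The poles of `T ⊗ T` and `T^{⊗ 4}` control the pole of `L(H^{2m}(X), s)`.**
* Let `χ` be an irreducible Artin representation of dimension `n` and `ψ` one with the character `|χ|²`,
for instance `χ = ψ = 1`.  For all small `ε > 0` (no continuation is assumed)
`|x - dim (V ⊗ χ)^G| ≤ (x₂ + 1) / 2 - (x₄ - 2 x_ψ + 1) / (2 (s + n)²) + η`, for the quotients
`log |L(edge + ε)| / log(1/ε)`: `x` for `H^{2m}(X) ⊗ χ`, `x₂` for `T ⊗ T`, `x_ψ` for `T ⊗ T ⊗ ψ` and `x₄` for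
`T^{⊗ 4}`.
* If `L(T ⊗ T)` and `L(T ⊗ T ⊗ ψ)` have a simple pole at the edge and `L(T^{⊗ 4})` has a pole of order
`k ≠ 1`, then the order of `L(H^{2m}(X) ⊗ χ)` at `m + 1`, if it exists, is the one predicted by Tate.
* If `L(T ⊗ T ⊗ ψ)` has a pole of order `dim ψ^G` for all Artin representations `ψ` and `L(T^{⊗ 4})` has a
pole of order `k ≠ 1`, and if all orders of `L(H^{2m}(X) ⊗ χ)` at `m + 1` exist, then for every number
field `F ⊇ K` the pole of `L(H^{2m}(X_F), s)` at `m + 1` has the order `rank B^m(X_F)`. -/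
theorem result (K : Type) [Field K] [NumberField K] (l d m N : ℕ)
    (X : Set (MvPolynomial (Fin l) (𝓞 K))) (V : Type) [AddCommGroup V] [Module ℚ V]
    [FiniteDimensional ℚ V] (ρ : Representation ℚ Gal(AlgebraicClosure K/K) V) (hm : m ≤ d)
    (hV : IsPart X d m N ρ) :
    (∀ (n : ℕ) (χ : Representation ℂ Gal(AlgebraicClosure K/K) (Fin n → ℂ)), IsArtin χ →
      χ.IsIrreducible →
      ∀ (n' : ℕ) (ψ : Representation ℂ Gal(AlgebraicClosure K/K) (Fin n' → ℂ)), IsArtin ψ →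
      (∀ g, ψ.character g = ((‖χ.character g‖ ^ 2 : ℝ) : ℂ)) →
      (∀ B B₂ Bψ B₄ : HeightOneSpectrum (𝓞 K) → ℂ[X], IsTwistedSystem X d (2 * m) N χ 0 B →
        IsTensorSystem X d m N ρ 2
          (1 : Representation ℂ Gal(AlgebraicClosure K/K) (Fin 1 → ℂ)) B₂ →
        IsTensorSystem X d m N ρ 2 ψ Bψ →
        IsTensorSystem X d m N ρ 4
          (1 : Representation ℂ Gal(AlgebraicClosure K/K) (Fin 1 → ℂ)) B₄ →
        (∀ᶠ ε : ℝ in 𝓝[>] 0, LFun B (edgePoint (2 * m) 0 + ε) ≠ 0) ∧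
        ∀ η : ℝ, 0 < η → ∀ᶠ ε : ℝ in 𝓝[>] 0, |size (2 * m) 0 B ε - twistRank ρ χ| ≤
          (size (2 * (2 * m)) 0 B₂ ε + 1) / 2 -
            (size (2 * (4 * m)) 0 B₄ ε - 2 * size (2 * (2 * m)) 0 Bψ ε + 1) /
              (2 * (((N - Module.finrank ℚ V : ℕ) : ℝ) + n) ^ 2) + η) ∧
      ∀ k : ℕ,
        TensorPole X d m N ρ 2 (1 : Representation ℂ Gal(AlgebraicClosure K/K) (Fin 1 → ℂ)) 1 →
        TensorPole X d m N ρ 2 ψ 1 →
        TensorPole X d m N ρ 4 (1 : Representation ℂ Gal(AlgebraicClosure K/K) (Fin 1 → ℂ)) k →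
        k ≠ 1 → ∀ δ : ℤ, TwistDefect X d m N ρ χ δ → δ = 0) ∧
    ((∀ (n : ℕ) (ψ : Representation ℂ Gal(AlgebraicClosure K/K) (Fin n → ℂ)), IsArtin ψ →
        TensorPole X d m N ρ 2 ψ (Module.finrank ℂ ψ.invariants)) →
      (∀ k : ℕ,
        TensorPole X d m N ρ 4 (1 : Representation ℂ Gal(AlgebraicClosure K/K) (Fin 1 → ℂ)) k →
        k ≠ 1 →
      (∀ (n : ℕ) (χ : Representation ℂ Gal(AlgebraicClosure K/K) (Fin n → ℂ)), IsArtin χ →
        χ.IsIrreducible → ∃ δ : ℤ, TwistDefect X d m N ρ χ δ) →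
      ∀ (F : IntermediateField K (AlgebraicClosure K)) [NumberField F]
        (B : HeightOneSpectrum (𝓞 F) → ℂ[X]),
        Pool.Agent.W353.EF.IsEulerSystem X d (2 * m) N B →
        (∀ᶠ ε : ℝ in 𝓝[>] 0, LFun B (((2 * m : ℕ) : ℂ) / 2 + 1 + ε) ≠ 0) ∧
        Tendsto (Pool.Agent.W353.EF.size (2 * m) B) (𝓝[>] 0) (𝓝 (rank ρ F : ℝ)))) :=
  Pool.Agent.Y139.SM.selfProducts hm hV

end Pool.Agent.Results.MP_058a58_ag.SelfProductPoles
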