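import Pool.Agent.Y149.WR.Fin

/-!
# Tate's pole conjecture for Weil restrictions: one extension governs all fields with a given group

`X` is a smooth projective variety of dimension `d` over a number field `K` (for example `K = ℚ`) with
Betti numbers `N 0, …, N (2d)`; `n ≥ 1` is an integer and `G` a group of permutations of `1, …, n`.  An
extension `F` of `K` of degree `n` with group `G` (`HasGroup`) gives the variety `R_F = Res_{F/K} X_F`
over `K`, a form of `X^n`.  The theorem compares Tate's conjecture on the pole of `L(H^{2m}(R_F), s)` at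
`s = m + 1` with the conjecture for the one variety `X^n / G` (the symmetric power `Sym^n X` if `G` is
the group of all permutations): outside the fields `F` which are not disjoint from a finite Galois
extension `M` of `K` of explicitly bounded degree (and from a field of definition of the cycles on
`X^n`), the conjecture for `R_F` and for `X^n / G` are equivalent: the orders of the poles are equal,
and so are the ranks of the groups of algebraic cycles.  For elliptic curves (and all varieties with
two-dimensional odd cohomology and even cohomology of Tate type) and the group of all permutations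
the order for `X^n / G` is known, and the order for `R_F` is the value expected by Tate.

The definitions are in `Pool.Agent.Y149.WR.Defs`, `Pool.Agent.Y149.Ord` and `Pool.Agent.W353.EF.Defs`:

* `T`, `IsEigen`, `IsRestriction`, `IsQuotient`: the traces of Frobenius on `H^i(X^n)` composed with
  permutations of the factors (Künneth), and the Euler factors of `L(H^i(R_F), s)`, `L(H^i(X^n/G), s)`;
* `size i B ε = log |L(i/2 + 1 + ε)| / log(1/ε)`; `HasOrder i B r`: `ε^{-r} L(i/2 + 1 + ε)` has a finite
  nonzero limit as `ε → 0⁺`, so that `ord_{s = i/2+1} L(s) = r` in the sense of the problem;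
* `closure K F`: the compositum of the fields conjugate to `F`, inside the algebraic closure of `K`;
* `betti d N n i = dim H^i(X^n)`, `symBetti d N n i = dim H^i(Sym^n X)` (numbers of words and multisets
  of letters); `Nat.card (ConjClasses G)` is the number of conjugacy classes of `G`;
* `cyclesRestriction`, `cyclesQuotient`: the cycles on `R_F` and on `X^n/G`, inside those on `X^n`.
-/

set_option autoImplicit false

namespace Pool.Agent.Results.MP_058a58_ag.WeilRestrictions

open NumberField IsDedekindDomain Filter Topology Polynomial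
open Pool.Agent.W353.EF (LFun size closure)
open Pool.Agent.Y149.Ord (HasOrder)
open Pool.Agent.Y149.WR

/-- **Tate's pole conjecture and Weil restrictions.**  No analytic continuation is assumed.
1. Let `F_κ` be finitely many extensions of `K` with group `G` and with pairwise disjoint closures.
For every `η > 0` and all small `ε > 0` the `L`-functions of `H^i(X^n/G)` and `H^i(Res X_{F_κ})` are not
zero at `i/2 + 1 + ε`, and the sum of the squares of the differences of their sizes is at most
`(c - 1) b² + η`, `c` the number of conjugacy classes of `G`, `b = dim H^i(X^n)`.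
If the orders `r₀`, `r_κ` at `i/2 + 1` exist, `∑ (r_κ - r₀)² ≤ (c - 1) b²`.
2. There is a finite Galois extension `M` of `K` of degree at most `|G|^((c - 1) b²)` such that for all
extensions `F` with group `G` and closure disjoint from `M` (`closure ∩ M = K`): the difference of the
sizes of `L(H^i(Res X_F))` and `L(H^i(X^n/G))` is smaller than one for arbitrarily small `ε > 0`, and
the orders `r`, `r₀` at `i/2 + 1` are equal if they exist.  If moreover the closure is disjoint from a
finite extension `L` over which the cycles `V` on `X^n` are defined, then the cycles on `Res X_F` are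
those on `X^n/G`; in particular the order of the pole is the rank of the group of cycles for
`Res X_F` if and only if this holds for `X^n/G`.
3. Let the cohomology of `X` be of Tate type except for a two-dimensional piece of odd degree (for
example an elliptic curve), and let `G` be the group of all permutations.  For every `m` there is a
finite Galois extension `M` of `K`, of degree at most `(n!)^((c - 1) b²)` with `b = dim H^{2m}(X^n)`,
such that for all extensions `F` of degree `n` with group `G` and closure disjoint from `M`: the size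
of `L(H^{2m}(Res X_F))` differs from `dim H^{2m}(Sym^n X)` by less than one for arbitrarily small
`ε > 0`, and the order at `s = m + 1` is `- dim H^{2m}(Sym^n X)` if it exists. -/
theorem result (K : Type) [Field K] [NumberField K] (l d n : ℕ) (N : ℕ → ℕ)
    (X : Set (MvPolynomial (Fin l) (𝓞 K))) (G : Subgroup (Equiv.Perm (Fin n))) :
    (∀ (i M₀ : ℕ) (B₀ : HeightOneSpectrum (𝓞 K) → ℂ[X]), IsQuotient X d N G i M₀ B₀ →
      (∀ (κ : Type) [Fintype κ] (F : κ → Type) [∀ k, Field (F k)] [∀ k, NumberField (F k)]
        [∀ k, Algebra K (F k)] (e : ∀ k, Fin n ≃ (F k →ₐ[K] AlgebraicClosure K)) (M : κ → ℕ)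
        (B : κ → HeightOneSpectrum (𝓞 K) → ℂ[X]), (∀ k, HasGroup (e k) G) →
        (∀ k k', k ≠ k' → closure K (F k) ⊓ closure K (F k') = ⊥) →
        (∀ k, IsRestriction X d N (e k) i (M k) (B k)) →
        (∀ η : ℝ, 0 < η → ∀ᶠ ε : ℝ in 𝓝[>] 0, LFun B₀ ((i : ℂ) / 2 + 1 + ε) ≠ 0 ∧
          (∀ k, LFun (B k) ((i : ℂ) / 2 + 1 + ε) ≠ 0) ∧
          ∑ k, (size i (B k) ε - size i B₀ ε) ^ 2 ≤
            ((Nat.card (ConjClasses G) : ℝ) - 1) * (betti d N n i : ℝ) ^ 2 + η) ∧
        ∀ (r₀ : ℤ) (r : κ → ℤ), HasOrder i B₀ r₀ → (∀ k, HasOrder i (B k) (r k)) →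
          ∑ k, (r k - r₀) ^ 2 ≤ ((Nat.card (ConjClasses G) : ℤ) - 1) * (betti d N n i : ℤ) ^ 2) ∧
      ∃ M : IntermediateField K (AlgebraicClosure K), FiniteDimensional K M ∧ IsGalois K M ∧
        Module.finrank K M ≤
          Nat.card G ^ ((Nat.card (ConjClasses G) - 1) * betti d N n i ^ 2) ∧
        ∀ (F : Type) [Field F] [NumberField F] [Algebra K F]
          (e : Fin n ≃ (F →ₐ[K] AlgebraicClosure K)) (M' : ℕ)
          (B : HeightOneSpectrum (𝓞 K) → ℂ[X]), HasGroup e G → closure K F ⊓ M = ⊥ →
          IsRestriction X d N e i M' B →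
          (∃ᶠ ε : ℝ in 𝓝[>] 0, |size i B ε - size i B₀ ε| < 1) ∧
          ∀ r₀ r : ℤ, HasOrder i B₀ r₀ → HasOrder i B r → r = r₀ ∧
            ∀ (k V : Type) [Field k] [AddCommGroup V] [Module k V]
              (ρ : Representation k (Equiv.Perm (Fin n) × Gal(AlgebraicClosure K/K)) V)
              (L : IntermediateField K (AlgebraicClosure K)),
              (∀ σ ∈ L.fixingSubgroup, ρ (1, σ) = 1) → closure K F ⊓ L = ⊥ →
              cyclesRestriction e ρ = cyclesQuotient G ρ ∧
              (r = -(Module.finrank k (Submodule.span k (cyclesRestriction e ρ)) : ℤ) ↔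
                r₀ = -(Module.finrank k (Submodule.span k (cyclesQuotient G ρ)) : ℤ))) ∧
    (IsTwo X d N → ∀ m : ℕ, ∃ M : IntermediateField K (AlgebraicClosure K),
      FiniteDimensional K M ∧ IsGalois K M ∧ Module.finrank K M ≤ n.factorial ^
        ((Nat.card (ConjClasses (Equiv.Perm (Fin n))) - 1) * betti d N n (2 * m) ^ 2) ∧
      ∀ (F : Type) [Field F] [NumberField F] [Algebra K F]
        (e : Fin n ≃ (F →ₐ[K] AlgebraicClosure K)) (M' : ℕ)
        (B : HeightOneSpectrum (𝓞 K) → ℂ[X]), HasGroup e ⊤ → closure K F ⊓ M = ⊥ →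
        IsRestriction X d N e (2 * m) M' B →
        (∃ᶠ ε : ℝ in 𝓝[>] 0, |size (2 * m) B ε - symBetti d N n (2 * m)| < 1) ∧
        ∀ r : ℤ, HasOrder (2 * m) B r → r = -(symBetti d N n (2 * m) : ℤ)) := by
  refine ⟨fun i M₀ B₀ h₀ => ⟨?_, ?_⟩, ?_⟩
  · intro κ _ F _ _ _ e M B hG hdis hB
    have href := size_quotient h₀
    have hsum := fun (η : ℝ) (hη : 0 < η) => main_sum Finset.univ F e hG
      (fun k _ k' _ hkk => hdis k k' hkk) M B hB (ref := size i B₀) href.2 hη
    choose σ hσ using Pool.Agent.W540.BE.exists_isFrob (F := K)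
    have hne : ∀ k, ∀ᶠ ε : ℝ in 𝓝[>] 0, LFun (B k) ((i : ℂ) / 2 + 1 + ε) ≠ 0 := fun k =>
      (size_restriction (e k) (hB k) σ hσ).1
    refine ⟨fun η hη => ?_, fun r₀ r hr₀ hr => ?_⟩
    · filter_upwards [href.1, Filter.eventually_all.2 hne, hsum η hη] with ε h1 h2 h3
      exact ⟨h1, h2, h3⟩
    · have hlim : Tendsto (fun ε : ℝ => ∑ k, (size i (B k) ε - size i B₀ ε) ^ 2) (𝓝[>] 0)
          (𝓝 (∑ k, (-(r k : ℝ) - -(r₀ : ℝ)) ^ 2)) :=
        tendsto_finsetSum _ fun k _ =>
          ((ord_lim (hne k) (hr k)).sub (ord_lim href.1 hr₀)).pow 2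
      have h1 : ∑ k, (-(r k : ℝ) - -(r₀ : ℝ)) ^ 2 ≤
          ((Nat.card (ConjClasses G) : ℝ) - 1) * (betti d N n i : ℝ) ^ 2 :=
        le_of_forall_pos_le_add fun η hη => le_of_tendsto hlim (hsum η hη)
      have h2 : ∑ k, (-(r k : ℝ) - -(r₀ : ℝ)) ^ 2 = ((∑ k, (r k - r₀) ^ 2 : ℤ) : ℝ) := by
        push_cast
        exact Finset.sum_congr rfl fun k _ => by ring
      rw [h2] at h1
      exact_mod_cast h1
  · obtain ⟨M, h1, h2, h3, h4⟩ := governs (size_quotient h₀).2
    refine ⟨M, h1, h2, h3, fun F _ _ _ e M' B hG hdis hB => ?_⟩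
    obtain ⟨-, h6, h7⟩ := h4 F e M' B hG hdis hB
    refine ⟨h6, fun r₀ r hr₀ hr => ?_⟩
    have h8 : r = r₀ := h7 r₀ r (ord_lim (size_quotient h₀).1 hr₀) hr
    refine ⟨h8, fun k V _ _ _ ρ L hρ hL => ?_⟩
    have h9 := cycles_eq e ρ L hρ hG hL
    exact ⟨h9, by rw [h8, h9]⟩
  · intro hX m
    obtain ⟨M, h1, h2, h3, h4⟩ := governs (ref_two hX n m)
    have e1 : Nat.card (⊤ : Subgroup (Equiv.Perm (Fin n))) = n.factorial := by
      rw [Nat.card_congr Subgroup.topEquiv.toEquiv, Nat.card_eq_fintype_card, Fintype.card_perm,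
        Fintype.card_fin]
    have e2 : Nat.card (ConjClasses (⊤ : Subgroup (Equiv.Perm (Fin n)))) =
        Nat.card (ConjClasses (Equiv.Perm (Fin n))) := classes_top
    rw [e1, e2] at h3
    refine ⟨M, h1, h2, h3, fun F _ _ _ e M' B hG hdis hB => ?_⟩
    obtain ⟨-, h6, h7⟩ := h4 F e M' B hG hdis hB
    refine ⟨h6, fun r hr => h7 _ r ?_ hr⟩
    push_cast
    rw [neg_neg]
    exact tendsto_const_nhds

end Pool.Agent.Results.MP_058a58_ag.WeilRestrictions
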